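import Mathlib

namespace Pool.Agent.Results.MP_847604_al.SL2
open Matrix Topology

instance : Fact (Nat.Prime 3) := ⟨by norm_num⟩
abbrev R : Type := ℤ_[3]
abbrev G : Type := SpecialLinearGroup (Fin 2) R

noncomputable def mk (a b c d : R) (h : a * d - b * c = 1) : G :=
  ⟨!![a, b; c, d], by simp [det_fin_two, h]⟩

theorem mk_mul {a b c d a' b' c' d' : R} (h h') : mk a b c d h * mk a' b' c' d' h' =
    mk (a * a' + b * c') (a * b' + b * d') (c * a' + d * c') (c * b' + d * d')
      (by linear_combination (a' * d' - b' * c') * h + h') :=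
  Subtype.ext (by simp [mk])

theorem mk_eq {a b c d a' b' c' d' : R} (h h') (h1 : a = a') (h2 : b = b') (h3 : c = c')
    (h4 : d = d') : mk a b c d h = mk a' b' c' d' h' := by subst_vars; rfl

theorem eq_mk (g : G) :
    g = mk (g 0 0) (g 0 1) (g 1 0) (g 1 1) (by rw [← det_fin_two]; exact g.det_coe) :=
  Subtype.ext (eta_fin_two _)

noncomputable def U (x : R) : G := mk 1 x 0 1 (by simp)
noncomputable def L (x : R) : G := mk 1 0 x 1 (by simp)

theorem conj {N : Subgroup G} [n : N.Normal] {A B : G} (X : G) (hB : B ∈ N) (h : X * A = B * X) :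
    A ∈ N := by
  have := n.conj_mem' B hB X
  rwa [mul_assoc, ← h, inv_mul_cancel_left] at this

theorem un (y : R) : IsUnit (1 - 3 * y) := isUnit_one_sub_of_norm_lt_one (by
  have : ‖((3 : ℕ) : R) * y‖ < 1 := PadicInt.norm_lt_one_iff_dvd _ |>.2 (dvd_mul_right _ _)
  simpa using this)

theorem tri {N : Subgroup G} [N.Normal] {p q r s l l' : R} {h} (hN : mk p q r s h ∈ N) (r0 : r ≠ 0)
    (hl : l * l' = 1) (tr : p + s = l + l') : ∃ β, mk l β 0 l' (by simpa using hl) ∈ N := by
  have k : (p - l) * (l - s) + q * r = 0 := by linear_combination l * tr - h + hl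
  rcases ValuationRing.dvd_total (l - s) r with ⟨z, hz⟩ | ⟨z, hz⟩
  · have e : p + q * z = l := sub_eq_zero.1 (mul_left_cancel₀ (left_ne_zero_of_mul (hz ▸ r0))
      (by linear_combination k - q * hz))
    refine ⟨q, conj (L z) hN ?_⟩
    simp only [L, mk_mul]
    exact mk_eq _ _ (by linear_combination -e) (by ring) (by linear_combination -hz)
      (by linear_combination e - tr)
  · have e : p * z + q = l * z := sub_eq_zero.1 (mul_left_cancel₀ r0
      (by linear_combination k - (p - l) * hz))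
    refine ⟨-r, conj (mk z (-1) 1 0 (by simp)) hN ?_⟩
    simp only [mk_mul]
    exact mk_eq _ _ (by linear_combination -e) (by linear_combination tr + hz)
      (by linear_combination hz) (by ring)

theorem step {N : Subgroup G} [n : N.Normal] {a b c e : R} {h} (hN : mk a b c e h ∈ N) (c0 : c ≠ 0) :
    ∃ d : R, d ≠ 0 ∧ ∀ x, U (d * x) ∈ N := by
  obtain ⟨ν, hν⟩ := (un (-c)).exists_right_inv
  have u2 : ∀ y : R, 2 + 3 * y ≠ 0 := fun y h => (un (y + 1)).ne_zero (by linear_combination -h)
  have t0 : (3 : R) ≠ 0 := by norm_num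
  set μ := 1 - 3 * -c with hμ
  let t := 3 * (μ + 1) * ν
  have h1 : mk a b c e h * U t * mk e (-b) (-c) a (by linear_combination h) * U (-t) ∈ N := by
    rw [mul_assoc, mul_assoc]
    refine mul_mem hN (conj (U (-t)) (B := (mk a b c e h)⁻¹) (inv_mem hN) ?_)
    rw [eq_comm, inv_mul_eq_iff_eq_mul]
    simp only [U, mk_mul]
    exact mk_eq _ _ (by linear_combination -h) (by linear_combination t * h) (by ring)
      (by linear_combination -h)
  simp only [U, mk_mul] at h1
  have tc : t * c = μ - ν := by simp only [t, hμ]; linear_combination (1 + 3 * c) * hν - (1 + 3 * c) * ν * hμ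
  obtain ⟨β, h2⟩ := tri (l := μ ^ 2) (l' := ν ^ 2) h1 (by
    have : -(t * c ^ 2) ≠ 0 := by
      have := u2 c
      have := right_ne_zero_of_mul_eq_one hν
      simp only [t, hμ, ne_eq, neg_eq_zero, mul_eq_zero, pow_eq_zero_iff two_ne_zero, not_or]
      exact ⟨⟨⟨t0, fun h => u2 c (by linear_combination h)⟩, this⟩, c0⟩
    convert this using 1; ring) (by rw [← mul_pow, hν, one_pow])
    (by linear_combination 2 * h + (t * c + μ - ν) * tc - 2 * hν)
  refine ⟨μ ^ 4 - 1, fun h => ?_, fun x => ?_⟩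
  · have : 3 * c * (2 + 3 * c) * (2 + 3 * (2 * c + 3 * c ^ 2)) = 0 := by linear_combination h
    simp [t0, c0, u2] at this
  · have := mul_mem h2 (n.conj_mem _ (inv_mem h2) (U x))
    convert this using 1
    rw [← mul_assoc, ← mul_assoc, eq_mul_inv_iff_mul_eq, eq_mul_inv_iff_mul_eq]
    simp only [U, mk_mul]
    exact mk_eq _ _ (by ring) (by linear_combination (μ ^ 2 * x * (μ * ν + 1)) * hν) (by ring)
      (by ring)

theorem dec {a b c e a' : R} (h) (ha : a * a' = 1) : mk a b c e h =
    L (c * a') * mk a 0 0 a' (by simpa using ha) * U (b * a') := by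
  simp only [U, L, mk_mul]
  exact mk_eq _ _ (by ring) (by linear_combination -b * ha) (by linear_combination -c * ha)
    (by linear_combination a' * h - (e + a' * b * c) * ha)

theorem opn {N : Subgroup G} [n : N.Normal] {d : R} (d0 : d ≠ 0) (hU : ∀ x, U (d * x) ∈ N) :
    IsOpen (N : Set G) := by
  have hL : ∀ x, L (d * x) ∈ N := fun x => conj (mk 0 (-1) 1 0 (by simp)) (hU (-x)) (by
    simp only [U, L, mk_mul]; exact mk_eq _ _ (by ring) (by ring) (by ring) (by ring))
  have dv : ∀ x : R, ‖x‖ < ‖d‖ → d ∣ x := fun x hx =>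
    (ValuationRing.dvd_total d x).resolve_right fun ⟨y, hy⟩ => hx.not_ge (by
      rw [hy, norm_mul]; exact mul_le_of_le_one_right (norm_nonneg _) y.norm_le_one)
  have ct : ∀ i j, Continuous fun g : G => g i j := fun i j =>
    continuous_subtype_val.matrix_elem i j
  have o : IsOpen {g : G | ‖1 - g 0 0‖ < ‖d‖ ∧ ‖g 0 1‖ < ‖d‖ ∧ ‖g 1 0‖ < ‖d‖} :=
    (isOpen_lt (continuous_const.sub (ct 0 0)).norm continuous_const).inter
      ((isOpen_lt (ct 0 1).norm continuous_const).inter (isOpen_lt (ct 1 0).norm continuous_const))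
  refine N.isOpen_of_mem_nhds (g := 1) (Filter.mem_of_superset (o.mem_nhds (by simpa using d0)) ?_)
  rintro g ⟨h1, h2, h3⟩
  obtain ⟨a', ha⟩ := (isUnit_one_sub_of_norm_lt_one (h1.trans_le d.norm_le_one)).exists_right_inv
  rw [sub_sub_cancel] at ha
  obtain ⟨y, hy⟩ := dv _ h1
  obtain ⟨b, hb⟩ := dv _ h2
  obtain ⟨c, hc⟩ := dv _ h3
  have K : mk (g 0 0) (d * y) (-(d * y)) (1 + d * y) (by
      linear_combination (-1 - d * y) * hy) ∈ N := conj (U (-1)) (hL (-y)) (by
    simp only [U, L, mk_mul]
    exact mk_eq _ _ (by linear_combination -hy) (by ring) (by ring) (by ring))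
  rw [dec _ ha, mul_assoc d, mul_mem_cancel_right (hU _), ← mul_neg, mul_assoc d,
    mul_mem_cancel_left (hL _)] at K
  rw [SetLike.mem_coe, eq_mk g, dec _ ha]
  exact mul_mem (mul_mem (by rw [hc, mul_assoc]; exact hL _) K) (by rw [hb, mul_assoc]; exact hU _)

theorem result : ∃ (G : Type) (_ : Group G) (_ : TopologicalSpace G), NonarchimedeanGroup G ∧
    CompactSpace G ∧ TopologicalSpace.MetrizableSpace G ∧ Uncountable G ∧
    ∀ N : Subgroup G, N.Normal → Finite N ∨ Finite (G ⧸ N) := by
  have emb := SpecialLinearGroup.isClosedEmbedding_val (n := Fin 2) (R := R)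
  have : CompactSpace (Matrix (Fin 2) (Fin 2) R) := inferInstanceAs (CompactSpace (_ → _ → R))
  have : TopologicalSpace.MetrizableSpace (Matrix (Fin 2) (Fin 2) R) :=
    inferInstanceAs (TopologicalSpace.MetrizableSpace (_ → _ → R))
  have : TotallyDisconnectedSpace (Matrix (Fin 2) (Fin 2) R) :=
    inferInstanceAs (TotallyDisconnectedSpace (_ → _ → R))
  have cp : CompactSpace G := emb.compactSpace
  have : TotallyDisconnectedSpace G := inferInstanceAs (TotallyDisconnectedSpace (Subtype _))
  refine ⟨G, inferInstance, inferInstance, ⟨fun V hV => ?_⟩, cp, emb.isEmbedding.metrizableSpace,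
    ⟨fun h => ?_⟩, fun N n => ?_⟩
  · obtain ⟨W, h1, h2, h3⟩ := mem_nhds_iff.1 hV
    obtain ⟨H, hH⟩ := ProfiniteGrp.exist_openNormalSubgroup_sub_open_nhds_of_one h2 h3
    exact ⟨H.toOpenSubgroup, hH.trans h1⟩
  · have : Countable R := Function.Injective.countable (f := U) fun x y h => by
      simpa [U, mk] using congrArg (fun g : G => g 0 1) h
    have : Countable ℚ_[3] := Function.Surjective.countable
      (f := fun x : R × R => algebraMap R ℚ_[3] x.1 / algebraMap R ℚ_[3] x.2) fun z => by
        obtain ⟨x, y, -, h⟩ := IsFractionRing.div_surjective R z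
        exact ⟨(x, y), h⟩
    exact ((continuum_le_cardinal_of_nontriviallyNormedField ℚ_[3]).trans Cardinal.mk_le_aleph0).not_gt
      Cardinal.aleph0_lt_continuum
  by_cases h : ∃ d : R, d ≠ 0 ∧ ∀ x, U (d * x) ∈ N
  · obtain ⟨d, d0, h⟩ := h
    exact .inr (N.quotient_finite_of_isOpen (opn d0 h))
  refine .inl (Set.Finite.subset (s := {mk 1 0 0 1 (by simp), mk (-1) 0 0 (-1) (by simp)})
    (Set.toFinite _) fun g hg => ?_)
  obtain ⟨a, b, c, e, hd, rfl⟩ : ∃ a b c e hd, g = mk a b c e hd := ⟨_, _, _, _, _, eq_mk g⟩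
  obtain rfl : c = 0 := by_contra fun c0 => h (step hg c0)
  obtain rfl : b = 0 := by_contra fun b0 => h (step (conj (A := mk e 0 (-b) a (by linear_combination hd))
    (mk 0 (-1) 1 0 (by simp)) hg (by
      simp only [mk_mul]; exact mk_eq _ _ (by ring) (by ring) (by ring) (by ring))) (neg_ne_zero.2 b0))
  obtain rfl : a = e := by_contra fun b0 => h (step (conj (A := mk a 0 (e - a) e (by linear_combination hd))
    (L 1) hg (by
      simp only [L, mk_mul]; exact mk_eq _ _ (by ring) (by ring) (by ring) (by ring)))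
      (sub_ne_zero.2 (Ne.symm b0)))
  rcases mul_self_eq_one_iff.1 (by linear_combination hd : a * a = 1) with rfl | rfl
  · exact .inl rfl
  · exact .inr rfl

end Pool.Agent.Results.MP_847604_al.SL2
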